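import Pool.Agent.Lib.MP_e1f7e2_al.FA.Iface2
import Pool.Agent.Lib.MP_e1f7e2_al.FA.H91.Frame

set_option autoImplicit false

/-!
Project FA (MP_e1f7e2_al), modules FINT and TMOV.
-/

open MulOpposite

namespace Pool.Agent.Lib.MP_e1f7e2_al.FA.H7

section

variable {K : Type*} [Field K] {n : ℕ}

/-- an endomorphism fixing the letters `j ≠ i` fixes the subalgebra generated by them -/
theorem fix_adj (i : Fin n) (φ : A K n →ₐ[K] A K n) (h : ∀ j, j ≠ i → φ (xx j) = xx j)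
    (p : A K n) (hp : p ∈ Algebra.adjoin K ((xx : Fin n → A K n) '' {j | j ≠ i})) : φ p = p := by
  induction hp using Algebra.adjoin_induction with
  | mem x hx =>
    obtain ⟨j, hj, rfl⟩ := hx
    exact h j hj
  | algebraMap r => exact φ.commutes r
  | add x y _ _ hx hy => rw [map_add, hx, hy]
  | mul x y _ _ hx hy => rw [map_mul, hx, hy]

/-- elementary automorphisms exist -/
theorem elem_exists (i : Fin n) (c : K) (hc : c ≠ 0) (p : A K n)
    (hp : p ∈ Algebra.adjoin K ((xx : Fin n → A K n) '' {j | j ≠ i})) :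
    ∃ φ : A K n ≃ₐ[K] A K n, IsElementary (xx : Fin n → A K n) φ ∧ φ (xx i) = c • xx i + p ∧
      ∀ j, j ≠ i → φ (xx j) = xx j := by
  classical
  set σ : A K n →ₐ[K] A K n := evl (Function.update xx i (c • xx i + p)) with hσ
  set τ : A K n →ₐ[K] A K n := evl (Function.update xx i (c⁻¹ • (xx i - p))) with hτ
  have s1 : σ (xx i) = c • xx i + p := by
    rw [hσ, H91.evl_xx, Function.update_self]
  have s2 : ∀ j, j ≠ i → σ (xx j) = xx j := by
    intro j hj
    rw [hσ, H91.evl_xx, Function.update_of_ne hj]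
  have t1 : τ (xx i) = c⁻¹ • (xx i - p) := by
    rw [hτ, H91.evl_xx, Function.update_self]
  have t2 : ∀ j, j ≠ i → τ (xx j) = xx j := by
    intro j hj
    rw [hτ, H91.evl_xx, Function.update_of_ne hj]
  have sp' := fix_adj i σ s2 p hp
  have tp' := fix_adj i τ t2 p hp
  have h1 : σ.comp τ = AlgHom.id K (A K n) := by
    apply H91.alg_ext
    intro j
    rw [AlgHom.comp_apply, AlgHom.id_apply]
    by_cases hj : j = i
    · subst hj
      rw [t1, map_smul, map_sub, s1, sp', add_sub_cancel_right, smul_smul, inv_mul_cancel₀ hc,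
        one_smul]
    · rw [t2 j hj, s2 j hj]
  have h2 : τ.comp σ = AlgHom.id K (A K n) := by
    apply H91.alg_ext
    intro j
    rw [AlgHom.comp_apply, AlgHom.id_apply]
    by_cases hj : j = i
    · subst hj
      rw [s1, map_add, map_smul, t1, tp', smul_smul, mul_inv_cancel₀ hc, one_smul,
        sub_add_cancel]
    · rw [s2 j hj, t2 j hj]
  exact ⟨AlgEquiv.ofAlgHom σ τ h1 h2, ⟨i, c, p, hc, hp, s1, s2⟩, s1, s2⟩

theorem img12 : (xx : Fin 3 → A K 3) '' {j | j ≠ 0} = {xx 1, xx 2} := by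
  ext y
  simp only [Set.mem_image, Set.mem_ofPred_eq, Set.mem_insert_iff, Set.mem_singleton_iff]
  constructor
  · rintro ⟨j, hj, rfl⟩
    fin_cases j
    · exact absurd rfl hj
    · left; rfl
    · right; rfl
  · rintro (rfl | rfl)
    · exact ⟨1, by decide, rfl⟩
    · exact ⟨2, by decide, rfl⟩

theorem img01 : (xx : Fin 3 → A K 3) '' {j | j ≠ 2} = {xx 0, xx 1} := by
  ext y
  simp only [Set.mem_image, Set.mem_ofPred_eq, Set.mem_insert_iff, Set.mem_singleton_iff]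
  constructor
  · rintro ⟨j, hj, rfl⟩
    fin_cases j
    · left; rfl
    · right; rfl
    · exact absurd rfl hj
  · rintro (rfl | rfl)
    · exact ⟨0, by decide, rfl⟩
    · exact ⟨1, by decide, rfl⟩

theorem aeval_mem (S : Subalgebra K (A K n)) (g : A K n) (hg : g ∈ S) (R : Polynomial K) :
    Polynomial.aeval g R ∈ S := by
  rw [Polynomial.aeval_eq_sum_range]
  exact S.sum_mem fun i _ => S.smul_mem (S.pow_mem hg i) _

theorem t2_mem {f g : A K 3} (h : T2 f g) : f ∈ B (xx 1 : A K 3) (xx 2) ∧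
    g ∈ B (xx 1 : A K 3) (xx 2) := by
  induction h with
  | base => exact ⟨Algebra.subset_adjoin (by simp), Algebra.subset_adjoin (by simp)⟩
  | swap f g _ ih => exact ⟨ih.2, ih.1⟩
  | el f g c R _ _ ih =>
    exact ⟨Subalgebra.add_mem _ (Subalgebra.smul_mem _ ih.1 c) (aeval_mem _ g ih.2 R), ih.2⟩

/-- the transposition of `x 1` and `x 2` -/
theorem swap_exists : ∃ φ : A K 3 ≃ₐ[K] A K 3, IsAffine (xx : Fin 3 → A K 3) φ ∧
    φ (xx 0) = xx 0 ∧ φ (xx 1) = xx 2 ∧ φ (xx 2) = xx 1 := by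
  set σ : A K 3 →ₐ[K] A K 3 := evl ![xx 0, xx 2, xx 1] with hσ
  have h1 : σ.comp σ = AlgHom.id K (A K 3) := by
    apply H91.alg_ext
    intro j
    rw [AlgHom.comp_apply, AlgHom.id_apply]
    fin_cases j
    · change σ (σ (xx 0)) = xx 0
      rw [hσ, H91.evl3_0, H91.evl3_0]
    · change σ (σ (xx 1)) = xx 1
      rw [hσ, H91.evl3_1, H91.evl3_2]
    · change σ (σ (xx 2)) = xx 2
      rw [hσ, H91.evl3_2, H91.evl3_1]
  have e0 : σ (xx 0) = xx 0 := H91.evl3_0 _ _ _
  have e1 : σ (xx 1) = xx 2 := H91.evl3_1 _ _ _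
  have e2 : σ (xx 2) = xx 1 := H91.evl3_2 _ _ _
  refine ⟨AlgEquiv.ofAlgHom σ σ h1 h1, ?_, e0, e1, e2⟩
  intro j
  change σ (xx j) ∈ _
  apply Submodule.subset_span
  right
  fin_cases j
  · exact ⟨0, e0.symm⟩
  · exact ⟨2, e1.symm⟩
  · exact ⟨1, e2.symm⟩

theorem t2_tame {f g : A K 3} (h : T2 f g) : ∃ σ ∈ TG K, σ (xx 0) = xx 0 ∧ σ (xx 1) = f ∧
    σ (xx 2) = g := by
  induction h with
  | base => exact ⟨1, one_mem _, rfl, rfl, rfl⟩
  | swap f g _ ih =>
    obtain ⟨σ, hσ, h0, h1, h2⟩ := ih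
    obtain ⟨φ, hφ, p0, p1, p2⟩ := swap_exists (K := K)
    refine ⟨σ * φ, mul_mem hσ hφ.mem, ?_, ?_, ?_⟩
    · rw [AlgEquiv.mul_apply, p0, h0]
    · rw [AlgEquiv.mul_apply, p1, h2]
    · rw [AlgEquiv.mul_apply, p2, h1]
  | el f g c R _ hc ih =>
    obtain ⟨σ, hσ, h0, h1, h2⟩ := ih
    have hp : Polynomial.aeval (xx 2 : A K 3) R ∈
        Algebra.adjoin K ((xx : Fin 3 → A K 3) '' {j | j ≠ 1}) :=
      aeval_mem _ _ (Algebra.subset_adjoin
        (show (xx 2 : A K 3) ∈ (xx : Fin 3 → A K 3) '' {j | j ≠ 1} from ⟨2, by decide, rfl⟩)) R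
    obtain ⟨φ, hφ, p1, p2⟩ := elem_exists (K := K) (1 : Fin 3) c hc _ hp
    refine ⟨σ * φ, mul_mem hσ hφ.mem, ?_, ?_, ?_⟩
    · rw [AlgEquiv.mul_apply, p2 0 (by decide), h0]
    · rw [AlgEquiv.mul_apply, p1, map_add, map_smul, h1]
      congr 1
      have := Polynomial.aeval_algHom_apply (σ : A K 3 →ₐ[K] A K 3) (xx 2) R
      rw [← h2]
      exact this.symm
    · rw [AlgEquiv.mul_apply, p2 2 (by decide), h2]

end

/-- module FINT -/
theorem fint (K : Type*) [Field K] : FintStatement K := by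
  intro ψ τ h f g q a hτ e0 e1 e2 hT ha hq hh
  obtain ⟨σ, hσ, s0, s1, s2⟩ := t2_tame hT
  have hq' : q ∈ Algebra.adjoin K ((xx : Fin 3 → A K 3) '' {j | j ≠ 0}) := by
    rw [img12]
    exact hq
  obtain ⟨ε, hε, p0, p1⟩ := elem_exists (K := K) (0 : Fin 3) a ha q hq'
  have hfix : ∀ p ∈ B (xx 1 : A K 3) (xx 2), ε p = p := by
    intro p hp
    refine fix_adj (0 : Fin 3) (ε : A K 3 →ₐ[K] A K 3) p1 p ?_
    rw [img12]
    exact hp
  have key : ψ * τ = ε * σ := by
    have h1 : ((ψ * τ : A K 3 ≃ₐ[K] A K 3) : A K 3 →ₐ[K] A K 3) =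
        ((ε * σ : A K 3 ≃ₐ[K] A K 3) : A K 3 →ₐ[K] A K 3) := by
      apply H91.alg_ext
      intro j
      fin_cases j
      · change ψ (τ (xx 0)) = ε (σ (xx 0))
        rw [e0, s0, p0, hh]
      · change ψ (τ (xx 1)) = ε (σ (xx 1))
        rw [e1, s1, hfix f (t2_mem hT).1]
      · change ψ (τ (xx 2)) = ε (σ (xx 2))
        rw [e2, s2, hfix g (t2_mem hT).2]
    exact AlgEquiv.ext fun x => DFunLike.congr_fun h1 x
  have h2 : ψ = ε * σ * τ⁻¹ := by
    rw [← key, mul_assoc, mul_inv_cancel, mul_one]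
  rw [h2]
  exact mul_mem (mul_mem hε.mem hσ) (inv_mem hτ)

/-- module TMOV -/
theorem tmov (K : Type*) [Field K] : TmovStatement K := by
  intro ψ τ f g h q hτ hsp hq
  set Φ : A K 3 ≃ₐ[K] A K 3 := ψ * τ with hΦ
  have hΦ' : ∀ x, Φ x = ψ (τ x) := fun x => rfl
  have hΦ2 : ∀ x, Φ (Φ.symm x) = x := fun x => Φ.apply_symm_apply x
  set F := Φ.symm f with hF
  set G := Φ.symm g with hG
  set H := Φ.symm h with hH
  have key : sp F G H = H91.LL K := by
    have e1 : Submodule.map (Φ : A K 3 →ₐ[K] A K 3).toLinearMap (sp F G H) = sp f g h := by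
      rw [sp, Submodule.map_span, sp]
      congr 1
      rw [Set.image_insert_eq, Set.image_insert_eq, Set.image_insert_eq, Set.image_singleton]
      have k1 : ∀ x, (Φ : A K 3 →ₐ[K] A K 3).toLinearMap x = Φ x := fun x => rfl
      rw [k1, k1, k1, k1, hF, hG, hH, hΦ2, hΦ2, hΦ2, map_one]
    have e2 : Submodule.map (Φ : A K 3 →ₐ[K] A K 3).toLinearMap (H91.LL K) = sp f g h := by
      rw [H91.LL, sp, Submodule.map_span, hsp, sp]
      congr 1
      rw [Set.image_insert_eq, Set.image_insert_eq, Set.image_insert_eq, Set.image_singleton]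
      have k1 : ∀ x, (Φ : A K 3 →ₐ[K] A K 3).toLinearMap x = Φ x := fun x => rfl
      rw [k1, k1, k1, k1, hΦ' (xx 0), hΦ' (xx 1), hΦ' (xx 2), map_one]
    refine Submodule.map_injective_of_injective ?_ (e1.trans e2.symm)
    intro a b hab
    exact Φ.injective hab
  obtain ⟨α, a0, a1, a2⟩ := H91.frLin key
  have hmem : ∀ y ∈ ({1, F, G, H} : Set (A K 3)), y ∈ H91.LL K := by
    intro y hy
    rw [← key]
    exact Submodule.subset_span hy
  have hLL : H91.LL K = Submodule.span K (insert 1 (Set.range (xx : Fin 3 → A K 3))) := by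
    rw [H91.LL, sp]
    congr 1
    ext y
    simp only [Set.mem_insert_iff, Set.mem_singleton_iff, Set.mem_range]
    constructor
    · rintro (rfl | rfl | rfl | rfl)
      · left; rfl
      · right; exact ⟨0, rfl⟩
      · right; exact ⟨1, rfl⟩
      · right; exact ⟨2, rfl⟩
    · rintro (rfl | ⟨j, rfl⟩)
      · left; rfl
      · right
        fin_cases j
        · left; rfl
        · right; left; rfl
        · right; right; rfl
  have hα : IsAffine (xx : Fin 3 → A K 3) α := by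
    intro j
    rw [← hLL]
    fin_cases j
    · change α (xx 0) ∈ _
      rw [a0]; exact hmem _ (by simp)
    · change α (xx 1) ∈ _
      rw [a1]; exact hmem _ (by simp)
    · change α (xx 2) ∈ _
      rw [a2]; exact hmem _ (by simp)
  -- the elementary part
  set p : A K 3 := α.symm (Φ.symm q) with hp
  have hpB : p ∈ Algebra.adjoin K ((xx : Fin 3 → A K 3) '' {j | j ≠ 2}) := by
    rw [img01]
    set χ : A K 3 →ₐ[K] A K 3 := ((α.symm : A K 3 ≃ₐ[K] A K 3) : A K 3 →ₐ[K] A K 3).comp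
      ((Φ.symm : A K 3 ≃ₐ[K] A K 3) : A K 3 →ₐ[K] A K 3) with hχ
    have h1 : χ f = xx 0 := by
      change α.symm (Φ.symm f) = xx 0
      rw [← hF, ← a0, AlgEquiv.symm_apply_apply]
    have h2 : χ g = xx 1 := by
      change α.symm (Φ.symm g) = xx 1
      rw [← hG, ← a1, AlgEquiv.symm_apply_apply]
    have h3 : Subalgebra.map χ (B f g) = Algebra.adjoin K {xx 0, xx 1} := by
      rw [B, AlgHom.map_adjoin, Set.image_insert_eq, Set.image_singleton, h1, h2]
    rw [← h3]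
    exact ⟨q, hq, rfl⟩
  obtain ⟨ε, hε, p2, p3⟩ := elem_exists (K := K) (2 : Fin 3) 1 one_ne_zero p hpB
  refine ⟨τ * α * ε, mul_mem (mul_mem hτ hα.mem) hε.mem, ?_, ?_, ?_⟩
  · change ψ (τ (α (ε (xx 0)))) = f
    rw [p3 0 (by decide), a0, ← hΦ', hF, hΦ2]
  · change ψ (τ (α (ε (xx 1)))) = g
    rw [p3 1 (by decide), a1, ← hΦ', hG, hΦ2]
  · change ψ (τ (α (ε (xx 2)))) = h + q
    rw [p2, one_smul, map_add, a2, hp, AlgEquiv.apply_symm_apply, ← hΦ', map_add, hH, hΦ2, hΦ2]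

end Pool.Agent.Lib.MP_e1f7e2_al.FA.H7
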